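import Pool.Agent.Helper815.Coll.Main

/-!
A lower bound for the 3x+1 scaled stopping time constant.
-/

set_option autoImplicit false

namespace Pool.Agent.Results.MP_f7abf1_nt.LowerBound

open scoped ENNReal

/-- The `3x+1` function. -/
def T (n : ℕ) : ℕ := if n % 2 = 0 then n / 2 else (3 * n + 1) / 2

open Classical in
/-- The total stopping time `σ_∞(n)`: the least `k ≥ 0` with `T^(k)(n) = 1`, and `∞` if there is
none. -/
noncomputable def sigma (n : ℕ) : ℕ∞ :=
  if h : ∃ k : ℕ, T^[k] n = 1 then ((Nat.find h : ℕ) : ℕ∞) else ⊤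

/-- The scaled total stopping time `γ_∞(n) = σ_∞(n) / log n` in `[0, ∞]` (used for `n ≥ 2`). -/
noncomputable def scaled (n : ℕ) : ℝ≥0∞ :=
  (sigma n : ℝ≥0∞) / ENNReal.ofReal (Real.log n)

/-- The scaled stopping time constant `γ = limsup γ_∞(n)`, in `[0, ∞]`. -/
noncomputable def gamma : ℝ≥0∞ := Filter.limsup scaled Filter.atTop

/-- `σ_∞(n) ≥ 7.2 log n` for infinitely many `n`; hence `γ ≥ 7.2`, and so `γ` is strictly larger
than the constant `((1/2) log (4/3))⁻¹ ≈ 6.952` (the average value in the random walk model). -/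
theorem result :
    (∀ N : ℕ, ∃ n : ℕ, N < n ∧ ∀ k : ℕ, T^[k] n = 1 → 36 / 5 * Real.log n ≤ k) ∧
    ENNReal.ofReal (36 / 5) ≤ gamma ∧
    ENNReal.ofReal ((1 / 2 * Real.log (4 / 3))⁻¹) < gamma := by
  have h1 : ∀ N : ℕ, ∃ n : ℕ, N < n ∧ 1 < n ∧
      ∀ k : ℕ, T^[k] n = 1 → 36 / 5 * Real.log n ≤ k :=
    Pool.Agent.Helper815.Coll.main'
  have h2 : ENNReal.ofReal (36 / 5) ≤ gamma := by
    refine Filter.le_limsup_of_frequently_le ?_ (by isBoundedDefault)
    · rw [Filter.frequently_atTop]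
      intro N
      obtain ⟨n, hn, hn1, hk⟩ := h1 N
      refine ⟨n, hn.le, ?_⟩
      have hlog : 0 < Real.log n := Real.log_pos (by exact_mod_cast hn1)
      unfold scaled
      rw [ENNReal.le_div_iff_mul_le (Or.inl (by
        rw [Ne, ENNReal.ofReal_eq_zero]; exact not_le.2 hlog)) (Or.inl ENNReal.ofReal_ne_top),
        ← ENNReal.ofReal_mul (by norm_num)]
      unfold sigma
      split_ifs with h
      · have h3 := hk _ (Nat.find_spec h)
        rw [ENat.toENNReal_coe, ← ENNReal.ofReal_natCast]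
        exact ENNReal.ofReal_le_ofReal h3
      · simp
  refine ⟨fun N => ?_, h2, lt_of_lt_of_le ?_ h2⟩
  · obtain ⟨n, hn, _, hk⟩ := h1 N
    exact ⟨n, hn, hk⟩
  · rw [ENNReal.ofReal_lt_ofReal_iff (by norm_num)]
    have h3 : (5 : ℝ) / 18 < Real.log (4 / 3) := by
      have h4 : Real.exp 5 < (4 / 3) ^ 18 := by
        have h5 : Real.exp 5 = (Real.exp 1) ^ 5 := by
          rw [← Real.exp_nat_mul]; norm_num
        have h6 := Real.exp_one_lt_d9
        rw [h5]
        calc (Real.exp 1) ^ 5 < (2.7182818286 : ℝ) ^ 5 := by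
              apply pow_lt_pow_left₀ h6 (Real.exp_pos 1).le (by norm_num)
          _ < (4 / 3) ^ 18 := by norm_num
      have h7 := Real.log_lt_log (Real.exp_pos 5) h4
      rw [Real.log_exp, Real.log_pow] at h7
      push_cast at h7
      linarith
    rw [inv_lt_comm₀ (by linarith) (by norm_num)]
    linarith

end Pool.Agent.Results.MP_f7abf1_nt.LowerBound
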